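import Pool.Agent.U762.DZ.Stm
import Pool.Agent.U898.RP.DET

set_option autoImplicit false

/-! Project DZ, package FINd: almost surely all orbits are finite. -/

namespace Pool.Agent.U208.DZ

open Finset MeasureTheory Filter Pool.Agent.U762.RP Pool.Agent.U762.DZ
open Pool.Agent.U898.RP.DET (orb orb_finite_of_eq)

/-- an infinite orbit has a point from which it is long for all `L` -/
theorem long_of_inf (d : ℕ) (m r : ℤ → ℤ) (M : ℝ) (ω : ℤ → ℤ) (x : ℤ)
    (hinf : ¬ (Set.range fun i : ℕ => (stp d m r ω)^[i] x).Finite) :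
    ∃ y, ∀ L, Long d m r M L y ω := by
  set f := stp d m r ω with hf
  have hinj : Function.Injective (fun i : ℕ => f^[i] x) := by
    intro a b hab
    rcases lt_trichotomy a b with h' | h' | h'
    · exact (hinf (orb_finite_of_eq f x a b h' hab).1).elim
    · exact h'
    · exact (hinf (orb_finite_of_eq f x b a h' hab.symm).1).elim
  have hF2 : {x : ℤ | |(x : ℝ)| < M}.Finite := by
    refine (Set.finite_Icc (-⌈M⌉) ⌈M⌉).subset ?_
    intro x hx
    have hx' : |(x : ℝ)| < M := hx
    rw [abs_lt] at hx'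
    constructor
    · have : ((-⌈M⌉ : ℤ) : ℝ) ≤ x := by
        push_cast
        have := Int.le_ceil M
        linarith [hx'.1]
      exact_mod_cast this
    · have : (x : ℝ) ≤ (⌈M⌉ : ℝ) := by
        have := Int.le_ceil M
        linarith [hx'.2]
      exact_mod_cast this
  have hfin : {i : ℕ | f^[i] x ∈ {x : ℤ | |(x : ℝ)| < M}}.Finite := hF2.preimage hinj.injOn
  obtain ⟨N, hN⟩ := hfin.bddAbove
  refine ⟨f^[N + 1] x, fun L => ⟨fun i _ => ?_, fun i j hij _ he => ?_⟩⟩
  · rw [← hf, ← Function.iterate_add_apply]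
    by_contra hc
    have h1 : i + (N + 1) ∈ {i : ℕ | f^[i] x ∈ {x : ℤ | |(x : ℝ)| < M}} := not_le.1 hc
    have := hN h1
    omega
  · rw [← hf, ← Function.iterate_add_apply, ← Function.iterate_add_apply] at he
    have := hinj he
    omega

theorem t_FINd : S_HIT → S_PRBd → S_FINd := by
  intro hHIT hPRB d m r hrel hprod δ hδ hδ'
  obtain ⟨A₀, hA₀, h⟩ := hHIT d m r hrel hprod δ hδ hδ'
  refine ⟨A₀, hA₀, ?_⟩
  intro A M₀ μ _ B hA hB hLaw
  obtain ⟨M, hM, hT⟩ := h A M₀ hA
  have hnull : ∀ y : ℤ, (Measure.infinitePi μ) {ω | ∀ L, Long d m r M L y ω} = 0 := by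
    intro y
    have h1 : ∀ L, (Measure.infinitePi μ) {ω | ∀ L, Long d m r M L y ω} ≤
        ENNReal.ofReal ((P d m r (fun x u => (μ x).real {u}) B M)^[L] (ind M) y) := fun L =>
      (measure_mono (show {ω | ∀ L, Long d m r M L y ω} ⊆ {ω | Long d m r M L y ω} from
        fun ω (h : ∀ L, Long d m r M L y ω) => h L)).trans (hPRB d m r μ B hB M L y)
    have h2 := ENNReal.tendsto_ofReal (hT _ B hLaw y)
    rw [ENNReal.ofReal_zero] at h2
    exact le_antisymm (ge_of_tendsto' h2 h1) zero_le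
  have hae : ∀ᵐ ω ∂(Measure.infinitePi μ), ∀ y : ℤ, ¬ ∀ L, Long d m r M L y ω := by
    rw [ae_all_iff]
    intro y
    rw [ae_iff]
    simp only [not_not]
    exact hnull y
  filter_upwards [hae] with ω hω x
  by_contra hinf
  obtain ⟨y, hy⟩ := long_of_inf d m r M ω x hinf
  exact hω y hy

end Pool.Agent.U208.DZ
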